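import Mathlib
import Pool.Agent.H8.Siegel.Upper
import Pool.Agent.H8.Siegel.Lower

set_option autoImplicit false

namespace Pool.Agent.Results.MP_674063_an.Enclosure

open scoped ENNReal

/-- `h` is the formal linearisation of `P(z) = lam (z + z²)` at `0`:
`h = z + O(z²)` and `P(h(z)) = h(lam z)`. -/
def IsLin (lam : ℂ) (h : PowerSeries ℂ) : Prop :=
  PowerSeries.coeff 0 h = 0 ∧ PowerSeries.coeff 1 h = 1 ∧
    PowerSeries.C lam * (h + h ^ 2) = PowerSeries.rescale lam h

/-- the radius of convergence of a power series with complex coefficients -/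
noncomputable def radius (h : PowerSeries ℂ) : ℝ≥0∞ :=
  (FormalMultilinearSeries.ofScalars ℂ fun n => PowerSeries.coeff n h).radius

/-- the supremum of the radii over all `lam` on the unit circle which are not roots of unity -/
noncomputable def supRadius : ℝ≥0∞ :=
  sSup {R | ∃ (lam : ℂ) (h : PowerSeries ℂ), ‖lam‖ = 1 ∧ (∀ n : ℕ, 1 ≤ n → lam ^ n ≠ 1) ∧
    IsLin lam h ∧ R = radius h}

/-- The supremum of the linearisation radii of the quadratic family lies between `0.3246` and
`0.345`. -/
theorem result : ENNReal.ofReal 0.3246 ≤ supRadius ∧ supRadius ≤ ENNReal.ofReal 0.345 := by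
  constructor
  · obtain ⟨lam, b, hl, hroot, h0, h1, hrec, hb⟩ := H8.Siegel.lower
    refine le_trans ?_ (le_sSup ⟨lam, PowerSeries.mk b, hl, hroot, ⟨?_, ?_, ?_⟩, rfl⟩)
    · have h2 : ENNReal.ofReal 0.3246 = ((0.3246 : ℝ).toNNReal : ℝ≥0∞) := rfl
      rw [h2]
      refine FormalMultilinearSeries.le_radius_of_bound _ 3 fun n => ?_
      rw [FormalMultilinearSeries.ofScalars_norm, PowerSeries.coeff_mk, Real.coe_toNNReal _ (by norm_num)]
      have h3 := hb n
      have h4 : (0.3246 : ℝ) = 3246 / 10000 := by norm_num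
      rw [h4]
      exact h3
    · rw [PowerSeries.coeff_mk, h0]
    · rw [PowerSeries.coeff_mk, h1]
    · ext n
      rw [PowerSeries.coeff_rescale, PowerSeries.coeff_C_mul, map_add, sq, PowerSeries.coeff_mul]
      simp only [PowerSeries.coeff_mk]
      exact (hrec n).symm
  · refine sSup_le ?_
    rintro R ⟨lam, h, hl, hroot, ⟨h0, h1, heq⟩, rfl⟩
    by_contra hlt
    push Not at hlt
    obtain ⟨r, hr1, hr2⟩ := ENNReal.lt_iff_exists_nnreal_btwn.1 hlt
    have hsum := (FormalMultilinearSeries.ofScalars ℂ fun n => PowerSeries.coeff n h).summable_norm_mul_pow hr2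
    simp only [FormalMultilinearSeries.ofScalars_norm] at hsum
    have hrec : H8.Siegel.Rec lam (fun n => PowerSeries.coeff n h) := by
      intro n
      have e := congrArg (PowerSeries.coeff n) heq
      rw [PowerSeries.coeff_rescale, PowerSeries.coeff_C_mul, map_add, sq, PowerSeries.coeff_mul] at e
      exact e.symm
    have hle := H8.Siegel.upper hl hroot h0 h1 hrec hsum
    have h2 : ENNReal.ofReal 0.345 < ENNReal.ofReal r := by
      rw [ENNReal.ofReal_coe_nnreal]; exact hr1
    have h3 : (0.345 : ℝ) < r := ENNReal.ofReal_lt_ofReal_iff'.1 h2 |>.1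
    norm_num at h3
    linarith

end Pool.Agent.Results.MP_674063_an.Enclosure
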